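import Pool.Agent.Q169.ZD.Stm2

/-! # The job RES: the cellular chain complex of a free acyclic complex with finitely many orbits
is a finite free resolution -/

set_option autoImplicit false

open scoped Matrix

namespace Run7.h854.ZD

open Pool.Agent.H919R4.ZS (FinRes toRed augm)
open Pool.Agent.TH38.CX (AcyclicGComplex)
open Pool.Agent.Q169.ZD

noncomputable section

variable {N : Type} [Group N]

section one

variable {A : Type} {m : ℕ} (ψ : A ≃ N × Fin m)

/-- finitely supported functions on `A` as vectors over the group ring -/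
def Th : (A →₀ ℤ) →+ (Fin m → MonoidAlgebra ℤ N) :=
  Finsupp.liftAddHom fun e => (AddMonoidHom.single _ (ψ e).2).comp
    (MonoidAlgebra.coeffAddEquiv.symm.toAddMonoidHom.comp (Finsupp.singleAddHom (ψ e).1))

theorem Th_single (e : A) (r : ℤ) :
    Th ψ (Finsupp.single e r) = Pi.single (ψ e).2 (MonoidAlgebra.single (ψ e).1 r) := by
  unfold Th
  rw [Finsupp.liftAddHom_apply_single]
  rfl

theorem Th_coeff (z : A →₀ ℤ) (k : Fin m) (g : N) :
    (Th ψ z k).coeff g = z (ψ.symm (g, k)) := by
  classical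
  induction z using Finsupp.induction_linear with
  | zero => simp
  | add a b ha hb =>
    rw [map_add, Pi.add_apply, MonoidAlgebra.coeff_add, Finsupp.add_apply, Finsupp.add_apply, ha, hb]
  | single e r =>
    rw [Th_single]
    by_cases hk : k = (ψ e).2
    · subst hk
      rw [Pi.single_eq_same, MonoidAlgebra.coeff_single, Finsupp.single_apply, Finsupp.single_apply]
      have h1 : (ψ e).1 = g ↔ e = ψ.symm (g, (ψ e).2) := by
        constructor
        · rintro h
          rw [← h]
          exact (ψ.symm_apply_apply e).symm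
        · intro h
          have h2 := congrArg ψ h
          rw [Equiv.apply_symm_apply] at h2
          exact congrArg Prod.fst h2
      simp only [h1]
    · rw [Pi.single_eq_of_ne hk, MonoidAlgebra.coeff_zero, Finsupp.zero_apply, Finsupp.single_apply,
        if_neg]
      intro h
      apply hk
      rw [h, Equiv.apply_symm_apply]

/-- the inverse -/
def Ti (y : Fin m → MonoidAlgebra ℤ N) : A →₀ ℤ :=
  ∑ j, (y j).coeff.mapDomain fun n => ψ.symm (n, j)

theorem Th_Ti (y : Fin m → MonoidAlgebra ℤ N) : Th ψ (Ti ψ y) = y := by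
  unfold Ti
  rw [map_sum]
  have h1 : ∀ j, Th ψ ((y j).coeff.mapDomain fun n => ψ.symm (n, j)) = Pi.single j (y j) := by
    intro j
    have h2 : ∀ x : N →₀ ℤ, Th ψ (x.mapDomain fun n => ψ.symm (n, j)) =
        Pi.single j (MonoidAlgebra.ofCoeff x) := by
      intro x
      induction x using Finsupp.induction_linear with
      | zero => simp
      | add a b ha hb =>
        rw [Finsupp.mapDomain_add, map_add, ha, hb, MonoidAlgebra.ofCoeff_add, Pi.single_add]
      | single n r =>
        rw [Finsupp.mapDomain_single, Th_single, Equiv.apply_symm_apply]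
        rfl
    exact h2 _
  rw [Finset.sum_congr rfl fun j _ => h1 j, Finset.univ_sum_single]

theorem Th_inj {x y : A →₀ ℤ} (h : Th ψ x = Th ψ y) : x = y := by
  ext e
  have h1 := Th_coeff ψ x (ψ e).2 (ψ e).1
  have h2 := Th_coeff ψ y (ψ e).2 (ψ e).1
  rw [h, h2] at h1
  have h3 : ψ.symm ((ψ e).1, (ψ e).2) = e := ψ.symm_apply_apply e
  rw [h3] at h1
  exact h1.symm

theorem augm_Th (x : A →₀ ℤ) : ∑ j, augm N (Th ψ x j) * 1 = x.sum fun _ r => r := by
  simp only [mul_one]
  induction x using Finsupp.induction_linear with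
  | zero => simp
  | add a b ha hb =>
    rw [map_add, Finsupp.sum_add_index' (fun _ => rfl) (fun _ _ _ => rfl), ← ha, ← hb,
      ← Finset.sum_add_distrib]
    exact Finset.sum_congr rfl fun j _ => by rw [Pi.add_apply, map_add]
  | single e r =>
    rw [Th_single, Finsupp.sum_single_index rfl, Finset.sum_eq_single (ψ e).2]
    · rw [Pi.single_eq_same]
      unfold augm
      simp
    · intro j _ hj
      rw [Pi.single_eq_of_ne hj, map_zero]
    · intro h
      exact absurd (Finset.mem_univ _) h

end one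

theorem t_RES : S_RES := by
  intro N _ U hfree c rep hrep
  have hbij : ∀ i, Function.Bijective fun p : N × Fin (c i) => p.1 • rep i p.2 := by
    intro i
    constructor
    · rintro ⟨n, a⟩ ⟨n', a'⟩ h
      simp only at h
      have ha : a = a' := (hrep i (n • rep i a)).unique ⟨n, rfl⟩ ⟨n', h.symm⟩
      subst ha
      have h1 : (n'⁻¹ * n) • rep i a = rep i a := by
        rw [mul_smul, h, inv_smul_smul]
      have h2 := hfree i _ _ h1
      have h3 : n = n' := by
        rw [inv_mul_eq_one] at h2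
        exact h2.symm
      rw [h3]
    · intro e
      obtain ⟨a, ⟨n, hn⟩, -⟩ := hrep i e
      exact ⟨(n, a), hn⟩
  let ψ : ∀ i, U.E i ≃ N × Fin (c i) := fun i => (Equiv.ofBijective _ (hbij i)).symm
  have hψs : ∀ i (n : N) (a : Fin (c i)), (ψ i).symm (n, a) = n • rep i a := fun i n a => rfl
  have hψ : ∀ i (n : N) (a : Fin (c i)), ψ i (n • rep i a) = (n, a) := by
    intro i n a
    rw [← hψs, Equiv.apply_symm_apply]
  have hψm : ∀ i (n : N) (e : U.E i), ψ i (n • e) = (n * (ψ i e).1, (ψ i e).2) := by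
    intro i n e
    obtain ⟨⟨m, a⟩, rfl⟩ := (hbij i).2 e
    simp only
    rw [← mul_smul, hψ, hψ]
  -- translation
  have hTs : ∀ i (n : N) (z : U.E i →₀ ℤ), Th (ψ i) (z.mapDomain fun e => n • e) =
      fun k => MonoidAlgebra.single n 1 * Th (ψ i) z k := by
    intro i n z
    induction z using Finsupp.induction_linear with
    | zero =>
      rw [Finsupp.mapDomain_zero, map_zero]
      funext k
      rw [Pi.zero_apply, mul_zero]
    | add a b ha hb =>
      rw [Finsupp.mapDomain_add, map_add, map_add, ha, hb]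
      funext k
      rw [Pi.add_apply, Pi.add_apply, mul_add]
    | single e r =>
      rw [Finsupp.mapDomain_single, Th_single, Th_single, hψm]
      funext k
      by_cases hk : k = (ψ i e).2
      · subst hk
        rw [Pi.single_eq_same, Pi.single_eq_same, MonoidAlgebra.single_mul_single, one_mul]
      · rw [Pi.single_eq_of_ne hk, Pi.single_eq_of_ne hk, mul_zero]
  let d : ∀ i, Matrix (Fin (c (i + 1))) (Fin (c i)) (MonoidAlgebra ℤ N) := fun i j =>
    Th (ψ i) (U.bd i (Finsupp.single (rep (i + 1) j) 1))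
  have hd : ∀ i (x : U.E (i + 1) →₀ ℤ), Th (ψ i) (U.bd i x) = Th (ψ (i + 1)) x ᵥ* d i := by
    intro i x
    induction x using Finsupp.induction_linear with
    | zero => rw [map_zero, map_zero, map_zero, Matrix.zero_vecMul]
    | add a b ha hb => rw [map_add, map_add, map_add, ha, hb, Matrix.add_vecMul]
    | single e r =>
      obtain ⟨⟨n, j⟩, rfl⟩ := (hbij (i + 1)).2 e
      simp only
      have h1 : (Finsupp.single (n • rep (i + 1) j) r : U.E (i + 1) →₀ ℤ) =
          r • (Finsupp.single (rep (i + 1) j) (1 : ℤ)).mapDomain fun e => n • e := by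
        rw [Finsupp.mapDomain_single, Finsupp.smul_single, smul_eq_mul, mul_one]
      rw [Th_single, hψ, Matrix.single_vecMul, h1, map_zsmul, U.bd_smul, map_zsmul, hTs]
      funext k
      change r • (MonoidAlgebra.single n 1 * d i j k) = MonoidAlgebra.single n r * d i j k
      rw [← smul_mul_assoc, MonoidAlgebra.smul_single, smul_eq_mul, mul_one]
  refine ⟨{ len := U.len, n := c, d := d, aug := fun _ => 1, n_eq_zero := ?_, surj := ?_,
            exact_zero := ?_, exact_succ := ?_ }, ψ, hψm, ?_⟩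
  · intro i hi
    by_contra h
    exact (U.isEmpty i hi).false (rep i ⟨0, Nat.pos_of_ne_zero h⟩)
  · obtain ⟨e⟩ := U.nonempty
    refine ⟨Th (ψ 0) (Finsupp.single e 1), ?_⟩
    rw [augm_Th, Finsupp.sum_single_index rfl]
  · intro x
    obtain ⟨x', rfl⟩ : ∃ x', Th (ψ 0) x' = x := ⟨_, Th_Ti (ψ 0) x⟩
    rw [augm_Th, U.exact_zero]
    constructor
    · rintro ⟨y, rfl⟩
      exact ⟨_, (hd 0 y).symm⟩
    · rintro ⟨y, hy⟩
      refine ⟨Ti (ψ 1) y, Th_inj (ψ 0) ?_⟩
      rw [hd]
      have h1 : Th (ψ (0 + 1)) (Ti (ψ 1) y) = y := Th_Ti (ψ 1) y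
      rw [h1]
      exact hy
  · intro i x
    obtain ⟨x', rfl⟩ : ∃ x', Th (ψ (i + 1)) x' = x := ⟨_, Th_Ti (ψ (i + 1)) x⟩
    rw [← hd]
    constructor
    · intro h
      have h1 : U.bd i x' = 0 := Th_inj (ψ i) (by rw [h, map_zero])
      obtain ⟨y, rfl⟩ := (U.exact_succ i x').1 h1
      exact ⟨_, (hd (i + 1) y).symm⟩
    · rintro ⟨y, hy⟩
      have h1 : U.bd i x' = 0 := by
        rw [U.exact_succ]
        refine ⟨Ti (ψ (i + 1 + 1)) y, Th_inj (ψ (i + 1)) ?_⟩
        rw [hd]
        have h1 : Th (ψ (i + 1 + 1)) (Ti (ψ (i + 1 + 1)) y) = y := Th_Ti (ψ (i + 1 + 1)) y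
        rw [h1]
        exact hy
      rw [h1, map_zero]
  · intro i e f
    obtain ⟨⟨n, j⟩, rfl⟩ := (hbij (i + 1)).2 e
    obtain ⟨⟨m, k⟩, rfl⟩ := (hbij i).2 f
    simp only
    rw [hψ, hψ]
    change _ = (Th (ψ i) (U.bd i (Finsupp.single (rep (i + 1) j) 1)) k).coeff (n⁻¹ * m)
    rw [Th_coeff, hψs]
    have h1 : (Finsupp.single (n • rep (i + 1) j) (1 : ℤ) : U.E (i + 1) →₀ ℤ) =
        (Finsupp.single (rep (i + 1) j) (1 : ℤ)).mapDomain fun e => n • e := by
      rw [Finsupp.mapDomain_single]
    rw [h1, U.bd_smul, mul_smul]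
    conv_lhs => rw [← smul_inv_smul n (m • rep i k)]
    exact Finsupp.mapDomain_apply (MulAction.injective n) _ _

end

end Run7.h854.ZD
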