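import Pool.Agent.Run7.h854.ZD.Stm3

/-! # The job ENG: the engine -/

set_option autoImplicit false

open scoped InnerProductSpace

namespace Run7.h854.ZD

open Pool.Agent.H496R3.ZS (Ell permIso dl dl_apply inner_dl_left)
open Pool.Agent.Q169.ZD
open Filter Topology

noncomputable section

open scoped Classical

section

variable {G : Type} [Group G] {E : Ext G} {I : Type} [Fintype I]

theorem wt_one (E : Ext G) : Wt E (fun _ => (1 : ℝ)) where
  pos _ := one_pos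
  one := rfl
  zero_mul _ _ _ := rfl
  mul_zero _ _ _ := rfl
  mul _ _ _ _ := (one_mul 1).symm
  smul _ _ _ _ := (one_mul 1).symm

/-- the algebra -/
def Alg (E : Ext G) (I : Type) (q : G → ℝ) : Set (Ell (I × G) →L[ℂ] Ell (I × G)) :=
  {x | Comm E I q x ∧ FS x}

omit [Fintype I] in
theorem alg_add (q : G → ℝ) {x y : Ell (I × G) →L[ℂ] Ell (I × G)} (hx : x ∈ Alg E I q)
    (hy : y ∈ Alg E I q) : x + y ∈ Alg E I q := by
  refine ⟨⟨fun s hs => ?_, fun h hh => ?_⟩, fun F hF => ?_⟩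
  · rw [ContinuousLinearMap.add_comp, ContinuousLinearMap.comp_add, hx.1.1 s hs, hy.1.1 s hs]
  · rw [ContinuousLinearMap.add_comp, ContinuousLinearMap.comp_add, hx.1.2 h hh, hy.1.2 h hh]
  · refine ((hx.2 F hF).union (hy.2 F hF)).subset ?_
    intro p hp
    by_contra hcon
    rw [Set.mem_union, not_or, Function.mem_support, Function.mem_support, not_not, not_not] at hcon
    apply hp
    change x F p + y F p = 0
    rw [hcon.1, hcon.2, add_zero]

omit [Fintype I] in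
theorem alg_mul (q : G → ℝ) {x y : Ell (I × G) →L[ℂ] Ell (I × G)} (hx : x ∈ Alg E I q)
    (hy : y ∈ Alg E I q) : x ∘L y ∈ Alg E I q := by
  refine ⟨⟨fun s hs => ?_, fun h hh => ?_⟩, fun F hF => hx.2 _ (hy.2 F hF)⟩
  · rw [ContinuousLinearMap.comp_assoc, hy.1.1 s hs, ← ContinuousLinearMap.comp_assoc,
      hx.1.1 s hs, ContinuousLinearMap.comp_assoc]
  · rw [ContinuousLinearMap.comp_assoc, hy.1.2 h hh, ← ContinuousLinearMap.comp_assoc,
      hx.1.2 h hh, ContinuousLinearMap.comp_assoc]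

omit [Fintype I] in
theorem alg_smul (q : G → ℝ) (a : ℂ) {x : Ell (I × G) →L[ℂ] Ell (I × G)} (hx : x ∈ Alg E I q) :
    a • x ∈ Alg E I q := by
  refine ⟨⟨fun s hs => ?_, fun h hh => ?_⟩, fun F hF => ?_⟩
  · rw [ContinuousLinearMap.smul_comp, ContinuousLinearMap.comp_smul, hx.1.1 s hs]
  · rw [ContinuousLinearMap.smul_comp, ContinuousLinearMap.comp_smul, hx.1.2 h hh]
  · refine (hx.2 F hF).subset ?_
    intro p hp
    by_contra hcon
    rw [Function.mem_support, not_not] at hcon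
    apply hp
    change a * x F p = 0
    rw [hcon, mul_zero]

/-- the trace as a linear functional -/
def TrL (G I : Type) [Group G] [Fintype I] : (Ell (I × G) →L[ℂ] Ell (I × G)) →ₗ[ℂ] ℂ where
  toFun x := Tr x
  map_add' x y := by
    unfold Tr
    rw [← Finset.sum_add_distrib]
    rfl
  map_smul' a x := by
    unfold Tr
    rw [RingHom.id_apply, smul_eq_mul, Finset.mul_sum]
    rfl

theorem norm_dl' {X : Type} (p : X) : ‖(dl p : Ell X)‖ = 1 := by
  have h := inner_dl_left p (dl p)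
  rw [dl_apply, if_pos rfl, inner_self_eq_norm_sq_to_K] at h
  have h2 : ‖(dl p : Ell X)‖ ^ 2 = 1 := by
    have h3 : (((‖(dl p : Ell X)‖ ^ 2 : ℝ)) : ℂ) = ((1 : ℝ) : ℂ) := by
      rw [Complex.ofReal_pow, Complex.ofReal_one]
      exact h
    exact Complex.ofReal_injective h3
  nlinarith [norm_nonneg (dl p : Ell X), sq_nonneg (‖(dl p : Ell X)‖ - 1)]

theorem TrL_le (x : Ell (I × G) →L[ℂ] Ell (I × G)) :
    ‖TrL G I x‖ ≤ (Fintype.card I : ℝ) * ‖x‖ := by
  change ‖Tr x‖ ≤ _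
  unfold Tr
  refine (norm_sum_le _ _).trans ?_
  have h1 : ∀ j ∈ (Finset.univ : Finset I), ‖(x (dl (j, 1)) : I × G → ℂ) (j, 1)‖ ≤ ‖x‖ := by
    intro j _
    refine (lp.norm_apply_le_norm (by norm_num) (x (dl (j, 1))) (j, 1)).trans ?_
    refine (x.le_opNorm _).trans ?_
    rw [norm_dl', mul_one]
  refine (Finset.sum_le_sum h1).trans ?_
  rw [Finset.sum_const, Finset.card_univ, nsmul_eq_mul]

end

theorem cont_abs {V : Type} [NormedAddCommGroup V] [NormedSpace ℂ V] {P : ℝ → V →L[ℂ] V}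
    (hP : Continuous P) (D D' : V →L[ℂ] V) (c : ℂ) :
    Continuous fun t : ℝ => ‖P t - c • (P t ∘L D' ∘L D ∘L P t + D ∘L P t ∘L D')‖ := by
  have h1 : Continuous fun t => P t ∘L D' ∘L D ∘L P t :=
    hP.clm_comp (continuous_const.clm_comp (continuous_const.clm_comp hP))
  have h2 : Continuous fun t => D ∘L P t ∘L D' :=
    continuous_const.clm_comp (hP.clm_comp continuous_const)
  exact (hP.sub ((h1.add h2).const_smul c)).norm

theorem ev_abs {V : Type} [NormedAddCommGroup V] [NormedSpace ℂ V] {P : ℝ → V →L[ℂ] V}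
    (hP : Continuous P) (D D' : V →L[ℂ] V) (c : ℂ)
    (h0 : ‖P 0 - c • (P 0 ∘L D' ∘L D ∘L P 0 + D ∘L P 0 ∘L D')‖ < 1) :
    ∃ η > 0, ∀ t : ℝ, |t| < η → ‖P t - c • (P t ∘L D' ∘L D ∘L P t + D ∘L P t ∘L D')‖ < 1 := by
  have hev := (cont_abs hP D D' c).continuousAt.eventually_lt
    (continuousAt_const (y := (1 : ℝ))) h0
  obtain ⟨η, hη, hball⟩ := Metric.eventually_nhds_iff.1 hev
  exact ⟨η, hη, fun t ht => hball (by rwa [Real.dist_eq, sub_zero])⟩

theorem t_ENG : S_ENG := by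
  intro G _ E I _ C hUP hPROJ hCONT hRIGHT hCOMM hTR hGAP hSMALL hSUPER hANA hDP hEx p hp
  obtain ⟨hDf, hDM, hDD, hDF, hDsF, heF, heD, heDs⟩ := hDP
  -- facts for a weight function
  have fPP : ∀ q, Wt E q → C.P q ∘L C.P q = C.P q := by
    intro q hq
    ext1 F
    exact (hPROJ q hq).2.1 _ ((hPROJ q hq).1 F)
  have fPDP : ∀ q, Wt E q → C.P q ∘L C.Dh ∘L C.P q = C.Dh ∘L C.P q := by
    intro q hq
    ext1 F
    exact (hPROJ q hq).2.1 _ (hDM q hq _ ((hPROJ q hq).1 F))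
  have fadj : ∀ q, Wt E q → ContinuousLinearMap.adjoint (C.P q) = C.P q :=
    fun q hq => (hPROJ q hq).2.2.1
  have fPDsP : ∀ q, Wt E q → C.P q ∘L C.Ds ∘L C.P q = C.P q ∘L C.Ds := by
    intro q hq
    have h := congrArg ContinuousLinearMap.adjoint (fPDP q hq)
    rw [ContinuousLinearMap.adjoint_comp, ContinuousLinearMap.adjoint_comp,
      fadj q hq, ContinuousLinearMap.comp_assoc] at h
    exact h
  have hDsDs : C.Ds ∘L C.Ds = 0 := by
    have h := congrArg ContinuousLinearMap.adjoint hDD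
    rw [ContinuousLinearMap.adjoint_comp, map_zero] at h
    exact h
  have hDDP : ∀ q, C.Dh ∘L C.Dh ∘L C.P q = 0 := by
    intro q
    rw [← ContinuousLinearMap.comp_assoc, hDD, ContinuousLinearMap.zero_comp]
  -- the spectral gap
  have hgap := hGAP (C.P fun _ => 1) C.Dh (fPP _ (wt_one E)) (fadj _ (wt_one E))
    (fPDP _ (wt_one E)) (hDDP _) (by
      intro x hx hDx
      have hxM : InM C (fun _ => 1) x := by
        rw [← hx]
        exact (hPROJ _ (wt_one E)).1 x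
      have hd0 : dop C.D x = 0 := by
        funext r
        rw [← hDf, hDx]
        rfl
      obtain ⟨F', hF', hF''⟩ := hEx x hxM hd0
      refine ⟨F', (hPROJ _ (wt_one E)).2.1 _ hF', ?_⟩
      refine ell_ext fun r => ?_
      rw [hDf, hF''])
  obtain ⟨K, hK, hgap⟩ := hgap
  obtain ⟨c, hc, hsmall⟩ := hSMALL (C.P fun _ => 1) C.Dh (fPP _ (wt_one E)) (fadj _ (wt_one E))
    (fPDP _ (wt_one E)) K hK hgap
  obtain ⟨hW, hcont⟩ := hCONT (fun _ => 1) p (wt_one E) hp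
  obtain ⟨Q, hQ⟩ : ∃ Q : ℝ → G → ℝ, Q = fun t g => 1 * p g ^ t := ⟨_, rfl⟩
  have hW' : ∀ t, Wt E (Q t) := fun t => by rw [hQ]; exact hW t
  have hcont' : Continuous fun t : ℝ => C.P (Q t) := by rw [hQ]; exact hcont
  have hQ0 : Q 0 = fun _ => 1 := by
    rw [hQ]
    funext g
    simp
  have hA0 : ‖C.P (Q 0) - (c : ℂ) • (C.P (Q 0) ∘L C.Ds ∘L C.Dh ∘L C.P (Q 0) +
      C.Dh ∘L C.P (Q 0) ∘L C.Ds)‖ < 1 := by
    rw [hQ0]
    exact hsmall
  obtain ⟨η, hη, hball⟩ := ev_abs hcont' C.Dh C.Ds (c : ℂ) hA0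
  -- the supertrace
  have htr : ∀ t : ℝ, |t| < η → ∑ j, (-1 : ℝ) ^ C.deg j / ∑ u ∈ C.U j, 1 * p u ^ t = 0 := by
    intro t ht
    have hlt := hball t ht
    have hq := hW' t
    have hPA : C.P (Q t) ∈ Alg E I (Q t) := ⟨(hCOMM _ hq).1, (hPROJ _ hq).2.2.2.2.1⟩
    have hDA : C.Dh ∈ Alg E I (Q t) := ⟨(hCOMM _ hq).2.1, hDF⟩
    have hDsA : C.Ds ∈ Alg E I (Q t) := ⟨(hCOMM _ hq).2.2.1, hDsF⟩
    have heA : C.eps ∈ Alg E I (Q t) := by
      refine ⟨⟨fun s hs => ?_, fun h hh => ?_⟩, heF⟩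
      · have h1 := ((hCOMM _ hq).2.2.2 {j | Even (C.deg j)}).1 s hs
        have h2 := ((hCOMM _ hq).2.2.2 {j | ¬ Even (C.deg j)}).1 s hs
        unfold Cx.eps
        rw [ContinuousLinearMap.sub_comp, ContinuousLinearMap.comp_sub]
        exact congrArg₂ (· - ·) h1 h2
      · have h1 := ((hCOMM _ hq).2.2.2 {j | Even (C.deg j)}).2 h hh
        have h2 := ((hCOMM _ hq).2.2.2 {j | ¬ Even (C.deg j)}).2 h hh
        unfold Cx.eps
        rw [ContinuousLinearMap.sub_comp, ContinuousLinearMap.comp_sub]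
        exact congrArg₂ (· - ·) h1 h2
    have heP : C.eps ∘L C.P (Q t) = C.P (Q t) ∘L C.eps := by
      have h1 := (hPROJ _ hq).2.2.2.2.2 {j | Even (C.deg j)}
      have h2 := (hPROJ _ hq).2.2.2.2.2 {j | ¬ Even (C.deg j)}
      unfold Cx.eps
      rw [ContinuousLinearMap.sub_comp, ContinuousLinearMap.comp_sub]
      exact (congrArg₂ (· - ·) h1 h2).symm
    have hz := hSUPER (Alg E I (Q t)) (TrL G I) (Fintype.card I)
      (fun x hx y hy => alg_add _ hx hy) (fun x hx y hy => alg_mul _ hx hy)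
      (fun a x hx => alg_smul _ a hx) (fun x hx y hy => hTR _ hq x y hx.1 hy.1 hx.2 hy.2)
      TrL_le (C.P (Q t)) C.Dh C.Ds C.eps hPA hDA hDsA heA (fPP _ hq) (fPDP _ hq) (fPDsP _ hq)
      (hDDP _) (by rw [hDsDs, ContinuousLinearMap.comp_zero]) heP heD heDs c hlt
    have hval : ∀ j : I, ((C.eps ∘L C.P (Q t)) (dl (j, 1)) : I × G → ℂ) (j, 1) =
        (((-1 : ℝ) ^ C.deg j / C.wt (Q t) j : ℝ) : ℂ) := by
      intro j
      have h4 := (hPROJ _ hq).2.2.2.1 j
      have h5 : ((C.eps ∘L C.P (Q t)) (dl (j, 1)) : I × G → ℂ) (j, 1) =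
          msk {p : I × G | Even (C.deg p.1)} (C.P (Q t) (dl (j, 1))) (j, 1) -
            msk {p : I × G | ¬ Even (C.deg p.1)} (C.P (Q t) (dl (j, 1))) (j, 1) := rfl
      rw [h5, msk_apply, msk_apply, h4]
      by_cases hE : Even (C.deg j)
      · rw [if_pos (show ((j, 1) : I × G) ∈ {p : I × G | Even (C.deg p.1)} from hE),
          if_neg (show ¬ ((j, 1) : I × G) ∈ {p : I × G | ¬ Even (C.deg p.1)} from
            fun h => h hE), sub_zero, hE.neg_one_pow]
      · rw [if_neg (show ¬ ((j, 1) : I × G) ∈ {p : I × G | Even (C.deg p.1)} from hE),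
          if_pos (show ((j, 1) : I × G) ∈ {p : I × G | ¬ Even (C.deg p.1)} from hE),
          zero_sub, (Nat.not_even_iff_odd.1 hE).neg_one_pow, neg_div, Complex.ofReal_neg]
    have hz2 : ∑ j : I, (((-1 : ℝ) ^ C.deg j / C.wt (Q t) j : ℝ) : ℂ) = 0 := by
      rw [← Finset.sum_congr rfl fun j _ => hval j]
      exact hz
    rw [← Complex.ofReal_sum] at hz2
    have hz3 := Complex.ofReal_eq_zero.1 hz2
    rw [hQ] at hz3
    exact hz3
  have hfin := hANA I G C.U (fun _ => 1) p (fun j => (-1 : ℝ) ^ C.deg j) (fun _ => one_pos) hp.pos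
    (fun j => ⟨1, (C.mem_U j 1).2 (one_mem _)⟩) ⟨η, hη, htr⟩ 1
  rw [← hfin]
  refine Finset.sum_congr rfl fun j _ => ?_
  congr 1
  unfold Cx.wt
  refine Finset.sum_congr rfl fun u _ => ?_
  rw [Real.rpow_one, one_mul]

end

end Run7.h854.ZD
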