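import Pool.Agent.Q169.ZD.Stm

/-! # The jobs GAP, SMALL, SUPER, ANA -/

set_option autoImplicit false

open scoped InnerProductSpace

namespace Run7.h854.ZD

open Pool.Agent.Q169.ZD

section hilb

variable {V : Type} [NormedAddCommGroup V] [InnerProductSpace ℂ V] [CompleteSpace V]

theorem t_GAP : S_GAP V := by
  intro P D hPP hPs hPDP hDDP hex
  have hPD : ∀ x, P x = x → P (D x) = D x := by
    intro x hx
    have h := congrArg (fun T : V →L[ℂ] V => T x) hPDP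
    simp only [ContinuousLinearMap.comp_apply, hx] at h
    exact h
  have hDD : ∀ x, P x = x → D (D x) = 0 := by
    intro x hx
    have h := congrArg (fun T : V →L[ℂ] V => T x) hDDP
    simp only [ContinuousLinearMap.comp_apply, hx] at h
    exact h
  obtain ⟨M, hM⟩ : ∃ M : Submodule ℂ V, ∀ v, v ∈ M ↔ P v = v := by
    refine ⟨LinearMap.ker ((P - ContinuousLinearMap.id ℂ V : V →L[ℂ] V) : V →ₗ[ℂ] V), fun v => ?_⟩
    rw [LinearMap.mem_ker]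
    change P v - v = 0 ↔ _
    rw [sub_eq_zero]
  obtain ⟨Z, hZ⟩ : ∃ Z : Submodule ℂ V, ∀ v, v ∈ Z ↔ P v = v ∧ D v = 0 := by
    refine ⟨M ⊓ LinearMap.ker (D : V →ₗ[ℂ] V), fun v => ?_⟩
    rw [Submodule.mem_inf, hM, LinearMap.mem_ker]
    rfl
  have hMc : IsClosed (M : Set V) := by
    have h : (M : Set V) = {v | P v = v} := by
      ext v
      exact hM v
    rw [h]
    exact isClosed_eq P.continuous continuous_id
  have hZc : IsClosed (Z : Set V) := by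
    have h : (Z : Set V) = {v | P v = v} ∩ {v | D v = 0} := by
      ext v
      exact hZ v
    rw [h]
    exact (isClosed_eq P.continuous continuous_id).inter (isClosed_eq D.continuous continuous_const)
  have : CompleteSpace M := hMc.completeSpace_coe
  have : CompleteSpace Z := hZc.completeSpace_coe
  obtain ⟨C, hC, h⟩ := ContinuousLinearMap.exists_preimage_norm_le
    ((D.comp M.subtypeL).codRestrict Z (fun w => (hZ _).2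
      ⟨hPD w.1 ((hM _).1 w.2), hDD w.1 ((hM _).1 w.2)⟩)) (by
      rintro ⟨v, hv⟩
      obtain ⟨hv1, hv2⟩ := (hZ v).1 hv
      obtain ⟨y, hy, hy'⟩ := hex v hv1 hv2
      exact ⟨⟨y, (hM y).2 hy⟩, Subtype.ext hy'⟩)
  have hpre : ∀ z, P z = z → D z = 0 → ∃ y, P y = y ∧ D y = z ∧ ‖y‖ ≤ C * ‖z‖ := by
    intro z h1 h2
    obtain ⟨w, hw, hwn⟩ := h ⟨z, (hZ z).2 ⟨h1, h2⟩⟩
    exact ⟨w.1, (hM _).1 w.2, congrArg Subtype.val hw, hwn⟩
  refine ⟨C * (1 + C * ‖D‖) + C, by positivity, fun x hx => ?_⟩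
  obtain ⟨x', hx', hDx', hn'⟩ := hpre (D x) (hPD x hx) (hDD x hx)
  obtain ⟨w, hw, hDw, hwn⟩ := hpre (x - x') (by rw [map_sub, hx, hx']) (by
    rw [map_sub, hDx', sub_self])
  rcases (norm_nonneg x).eq_or_lt with h0 | h0
  · rw [← h0]
    positivity
  have hDn : ‖D x‖ ≤ ‖D‖ * ‖x‖ := D.le_opNorm x
  have h1 : ‖w‖ ≤ C * (1 + C * ‖D‖) * ‖x‖ := by
    calc ‖w‖ ≤ C * ‖x - x'‖ := hwn
      _ ≤ C * (‖x‖ + C * (‖D‖ * ‖x‖)) := by
        gcongr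
        refine (norm_sub_le _ _).trans ?_
        gcongr
        exact hn'.trans (by gcongr)
      _ = _ := by ring
  have h2 : ‖x‖ ^ 2 ≤ ‖x‖ * ‖x'‖ + ‖P (ContinuousLinearMap.adjoint D x)‖ * ‖w‖ := by
    have e1 : ⟪x, D w⟫_ℂ = ⟪P (ContinuousLinearMap.adjoint D x), w⟫_ℂ := by
      rw [← ContinuousLinearMap.adjoint_inner_left]
      conv_lhs => rw [← hw]
      rw [← ContinuousLinearMap.adjoint_inner_left, hPs]
    have e2 : ⟪x, x⟫_ℂ = ⟪x, x'⟫_ℂ + ⟪P (ContinuousLinearMap.adjoint D x), w⟫_ℂ := by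
      rw [← e1, hDw, ← inner_add_right, add_sub_cancel]
    have e3 : ‖(⟪x, x⟫_ℂ : ℂ)‖ = ‖x‖ ^ 2 := by
      rw [inner_self_eq_norm_sq_to_K]
      simp
    rw [← e3, e2]
    exact (norm_add_le _ _).trans (add_le_add (norm_inner_le_norm _ _) (norm_inner_le_norm _ _))
  have h3 : ‖x‖ * ‖x‖ ≤ ((C * (1 + C * ‖D‖) + C) *
      (‖D x‖ + ‖P (ContinuousLinearMap.adjoint D x)‖)) * ‖x‖ := by
    have a1 : ‖x‖ * ‖x'‖ ≤ ‖x‖ * (C * ‖D x‖) := by gcongr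
    have a2 : ‖P (ContinuousLinearMap.adjoint D x)‖ * ‖w‖ ≤
        ‖P (ContinuousLinearMap.adjoint D x)‖ * (C * (1 + C * ‖D‖) * ‖x‖) := by gcongr
    have a3 : 0 ≤ (C * (1 + C * ‖D‖)) * ‖D x‖ * ‖x‖ := by positivity
    have a4 : 0 ≤ C * ‖P (ContinuousLinearMap.adjoint D x)‖ * ‖x‖ := by positivity
    nlinarith
  exact le_of_mul_le_mul_right h3 h0

theorem t_SMALL : S_SMALL V := by
  intro P D hPP hPs hPDP K hK hb
  obtain ⟨D', hD'⟩ : ∃ D' : V →L[ℂ] V, D' = ContinuousLinearMap.adjoint D := ⟨_, rfl⟩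
  rw [← hD'] at hb ⊢
  have hin : ∀ x y, ⟪D' x, y⟫_ℂ = ⟪x, D y⟫_ℂ := by
    intro x y
    rw [hD', ContinuousLinearMap.adjoint_inner_left]
  have hin' : ∀ x y, ⟪D x, y⟫_ℂ = ⟪x, D' y⟫_ℂ := by
    intro x y
    rw [hD', ContinuousLinearMap.adjoint_inner_right]
  have hP : ∀ x y, ⟪P x, y⟫_ℂ = ⟪x, P y⟫_ℂ := by
    intro x y
    rw [← ContinuousLinearMap.adjoint_inner_left, hPs]
  have hPPx : ∀ x, P (P x) = P x := fun x => congrArg (fun T : V →L[ℂ] V => T x) hPP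
  have hPDPx : ∀ x, P (D (P x)) = D (P x) := fun x => congrArg (fun T : V →L[ℂ] V => T x) hPDP
  have hPD'P : ∀ x, P (D' (P x)) = P (D' x) := by
    intro x
    refine ext_inner_right ℂ fun y => ?_
    rw [hP, hin, hP, hPDPx, ← hin, ← hP]
  obtain ⟨Δ, hΔ⟩ : ∃ Δ : V →L[ℂ] V, Δ = P ∘L D' ∘L D ∘L P + D ∘L P ∘L D' := ⟨_, rfl⟩
  rw [← hΔ]
  have hΔx : ∀ x, Δ x = P (D' (D (P x))) + D (P (D' x)) := fun x => by rw [hΔ]; rfl
  have hΔP : ∀ x, Δ (P x) = Δ x := fun x => by rw [hΔx, hΔx, hPPx, hPD'P]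
  have hq : ∀ y, P y = y → (⟪Δ y, y⟫_ℂ).re = ‖D y‖ ^ 2 + ‖P (D' y)‖ ^ 2 := by
    intro y hy
    have e1 : ⟪Δ y, y⟫_ℂ = ⟪D y, D y⟫_ℂ + ⟪P (D' y), P (D' y)⟫_ℂ := by
      rw [hΔx, inner_add_left, hP, hin, hy]
      congr 1
      rw [hin', ← hP, hPPx]
    rw [e1, Complex.add_re]
    congr 1
    · exact (inner_self_eq_norm_sq (𝕜 := ℂ) (D y))
    · exact (inner_self_eq_norm_sq (𝕜 := ℂ) (P (D' y)))
  obtain ⟨δ, hδ⟩ : ∃ δ : ℝ, δ = 1 / (2 * K ^ 2) := ⟨_, rfl⟩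
  have hδp : 0 < δ := by rw [hδ]; positivity
  have hlow : ∀ y, P y = y → δ * ‖y‖ ^ 2 ≤ (⟪Δ y, y⟫_ℂ).re := by
    intro y hy
    rw [hq y hy]
    have h1 := hb y hy
    have h2 : ‖y‖ ^ 2 ≤ (K * (‖D y‖ + ‖P (D' y)‖)) ^ 2 :=
      pow_le_pow_left₀ (norm_nonneg _) h1 2
    have h3 : (‖D y‖ + ‖P (D' y)‖) ^ 2 ≤ 2 * (‖D y‖ ^ 2 + ‖P (D' y)‖ ^ 2) := by
      nlinarith [sq_nonneg (‖D y‖ - ‖P (D' y)‖)]
    rw [hδ, div_mul_eq_mul_div, one_mul, div_le_iff₀ (by positivity)]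
    calc ‖y‖ ^ 2 ≤ (K * (‖D y‖ + ‖P (D' y)‖)) ^ 2 := h2
      _ = K ^ 2 * (‖D y‖ + ‖P (D' y)‖) ^ 2 := by ring
      _ ≤ K ^ 2 * (2 * (‖D y‖ ^ 2 + ‖P (D' y)‖ ^ 2)) := by gcongr
      _ = _ := by ring
  obtain ⟨L, hL⟩ : ∃ L : ℝ, L = ‖Δ‖ + 1 := ⟨_, rfl⟩
  have hLp : 0 < L := by rw [hL]; positivity
  obtain ⟨c, hc⟩ : ∃ c : ℝ, c = δ / L ^ 2 := ⟨_, rfl⟩
  have hcp : 0 < c := by rw [hc]; positivity
  refine ⟨c, hcp.ne', ?_⟩
  have hA : ∀ y, P y = y → ‖y - (c : ℂ) • Δ y‖ ^ 2 ≤ (1 - c * δ) * ‖y‖ ^ 2 := by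
    intro y hy
    have e2 : ‖y - (c : ℂ) • Δ y‖ ^ 2 =
        ‖y‖ ^ 2 - 2 * (c * (⟪Δ y, y⟫_ℂ).re) + c ^ 2 * ‖Δ y‖ ^ 2 := by
      rw [norm_sub_sq (𝕜 := ℂ), norm_smul, mul_pow, inner_smul_right, ← inner_conj_symm]
      simp
      left
      rw [← inner_conj_symm, Complex.conj_re]
    have h3 : ‖Δ y‖ ^ 2 ≤ L ^ 2 * ‖y‖ ^ 2 := by
      rw [← mul_pow]
      refine pow_le_pow_left₀ (norm_nonneg _) ((Δ.le_opNorm y).trans ?_) 2
      rw [hL]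
      gcongr
      linarith
    have h4 : c ^ 2 * ‖Δ y‖ ^ 2 ≤ c * δ * ‖y‖ ^ 2 := by
      have e : c * L ^ 2 = δ := by
        rw [hc]
        field_simp
      calc c ^ 2 * ‖Δ y‖ ^ 2 ≤ c ^ 2 * (L ^ 2 * ‖y‖ ^ 2) := by gcongr
        _ = c * (c * L ^ 2) * ‖y‖ ^ 2 := by ring
        _ = _ := by rw [e]
    have h5 := mul_le_mul_of_nonneg_left (hlow y hy) hcp.le
    rw [e2]
    nlinarith
  have hPn : ∀ x, ‖P x‖ ≤ ‖x‖ := by
    intro x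
    rcases (norm_nonneg (P x)).eq_or_lt with h0 | h0
    · rw [← h0]
      exact norm_nonneg _
    have e1 : ⟪P x, x⟫_ℂ = ⟪P x, P x⟫_ℂ := by
      rw [← hP, hPPx]
    have h3 := norm_inner_le_norm (𝕜 := ℂ) (P x) x
    rw [e1, inner_self_eq_norm_sq_to_K] at h3
    have h4 : ‖P x‖ * ‖P x‖ ≤ ‖x‖ * ‖P x‖ := by
      have : ‖P x‖ ^ 2 ≤ ‖P x‖ * ‖x‖ := by simpa using h3
      nlinarith
    exact le_of_mul_le_mul_right h4 h0
  obtain ⟨s, hs⟩ : ∃ s : ℝ, s = max 0 (1 - c * δ) := ⟨_, rfl⟩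
  have hs0 : 0 ≤ s := by rw [hs]; exact le_max_left _ _
  have hs1 : s < 1 := by
    rw [hs]
    apply max_lt one_pos
    have : 0 < c * δ := by positivity
    linarith
  have hle : ‖P - (c : ℂ) • Δ‖ ≤ √s := by
    apply ContinuousLinearMap.opNorm_le_bound _ (Real.sqrt_nonneg _)
    intro x
    have e1 : (P - (c : ℂ) • Δ) x = P x - (c : ℂ) • Δ (P x) := by
      rw [hΔP]
      rfl
    rw [e1]
    have h1 := hA (P x) (hPPx x)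
    have h2 : ‖P x - (c : ℂ) • Δ (P x)‖ ^ 2 ≤ s * ‖x‖ ^ 2 := by
      refine h1.trans ?_
      have h3 : (1 - c * δ) ≤ s := by rw [hs]; exact le_max_right _ _
      calc (1 - c * δ) * ‖P x‖ ^ 2 ≤ s * ‖P x‖ ^ 2 := by gcongr
        _ ≤ s * ‖x‖ ^ 2 := by
          gcongr
          exact hPn x
    have h3 : ‖P x - (c : ℂ) • Δ (P x)‖ = √(‖P x - (c : ℂ) • Δ (P x)‖ ^ 2) := by
      rw [Real.sqrt_sq (norm_nonneg _)]
    rw [h3]
    refine (Real.sqrt_le_sqrt h2).trans ?_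
    rw [Real.sqrt_mul hs0, Real.sqrt_sq (norm_nonneg _)]
  refine hle.trans_lt ?_
  rw [Real.sqrt_lt' one_pos, one_pow]
  exact hs1

end hilb

end Run7.h854.ZD
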