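import Pool.Agent.Run7.h854.ZD.Stm3

/-! # The jobs SUPER, ANA, LIM -/

set_option autoImplicit false

open scoped InnerProductSpace

namespace Run7.h854.ZD

open Pool.Agent.Q169.ZD
open Filter Topology

theorem super_ring {R : Type} [NormedRing R] [NormedAlgebra ℂ R] (𝒜 : Set R) (τ : R →ₗ[ℂ] ℂ)
    (K : ℝ) (hadd : ∀ x ∈ 𝒜, ∀ y ∈ 𝒜, x + y ∈ 𝒜) (hmul : ∀ x ∈ 𝒜, ∀ y ∈ 𝒜, x * y ∈ 𝒜)
    (hsm : ∀ (a : ℂ), ∀ x ∈ 𝒜, a • x ∈ 𝒜) (htr : ∀ x ∈ 𝒜, ∀ y ∈ 𝒜, τ (x * y) = τ (y * x))
    (hK : ∀ x, ‖τ x‖ ≤ K * ‖x‖) (P D D' ε : R) (hP : P ∈ 𝒜) (hD : D ∈ 𝒜) (hD' : D' ∈ 𝒜)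
    (hε : ε ∈ 𝒜) (hPP : P * P = P) (hPDP : P * (D * P) = D * P) (hPDP' : P * (D' * P) = P * D')
    (hDDP : D * (D * P) = 0) (hPDD : P * (D' * D') = 0) (heP : ε * P = P * ε)
    (heD : ε * D = -(D * ε)) (heD' : ε * D' = -(D' * ε)) (c : ℂ)
    (hn : ‖P - c • (P * (D' * (D * P)) + D * (P * D'))‖ < 1) : τ (ε * P) = 0 := by
  obtain ⟨d, hd⟩ : ∃ d, d = D * P := ⟨_, rfl⟩
  obtain ⟨d', hd'⟩ : ∃ d', d' = P * D' := ⟨_, rfl⟩
  have hPd : P * d = d := by rw [hd, hPDP]
  have hdP : d * P = d := by rw [hd, mul_assoc, hPP]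
  have hPd' : P * d' = d' := by rw [hd', ← mul_assoc, hPP]
  have hdP' : d' * P = d' := by rw [hd', mul_assoc, hPDP']
  have hdd : d * d = 0 := by
    calc d * d = D * (P * (D * P)) := by rw [hd, mul_assoc]
      _ = 0 := by rw [hPDP, hDDP]
  have hdd' : d' * d' = 0 := by
    calc d' * d' = (P * (D' * P)) * D' := by rw [hd']; simp only [mul_assoc]
      _ = 0 := by rw [hPDP', mul_assoc, hPDD]
  have hΔ : P * (D' * (D * P)) + D * (P * D') = d' * d + d * d' := by
    have e1 : d' * d = P * (D' * (D * P)) := by rw [hd, hd', mul_assoc]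
    have e2 : d * d' = D * (P * D') := by
      calc d * d' = D * ((P * P) * D') := by rw [hd, hd']; simp only [mul_assoc]
        _ = _ := by rw [hPP]
    rw [e1, e2]
  rw [hΔ] at hn
  obtain ⟨Δ, hΔd⟩ : ∃ Δ, Δ = d' * d + d * d' := ⟨_, rfl⟩
  rw [← hΔd] at hn
  obtain ⟨X, hX⟩ : ∃ X, X = P - c • Δ := ⟨_, rfl⟩
  rw [← hX] at hn
  have hdm : d ∈ 𝒜 := by rw [hd]; exact hmul _ hD _ hP
  have hdm' : d' ∈ 𝒜 := by rw [hd']; exact hmul _ hP _ hD'
  have hΔm : Δ ∈ 𝒜 := by rw [hΔd]; exact hadd _ (hmul _ hdm' _ hdm) _ (hmul _ hdm _ hdm')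
  have hXm : X ∈ 𝒜 := by
    rw [hX, sub_eq_add_neg, ← neg_smul]
    exact hadd _ hP _ (hsm _ _ hΔm)
  have hΔcd : Δ * d = d * Δ := by
    rw [hΔd, add_mul, mul_add, mul_assoc d' d d, hdd, mul_zero, zero_add, ← mul_assoc d d d', hdd,
      zero_mul, add_zero, mul_assoc]
  have hΔcd' : Δ * d' = d' * Δ := by
    rw [hΔd, add_mul, mul_add, mul_assoc d d' d', hdd', mul_zero, add_zero, ← mul_assoc d' d' d,
      hdd', zero_mul, zero_add, mul_assoc]
  have hPΔ : P * Δ = Δ := by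
    rw [hΔd, mul_add, ← mul_assoc, ← mul_assoc, hPd, hPd']
  have hΔP : Δ * P = Δ := by
    rw [hΔd, add_mul, mul_assoc, mul_assoc, hdP, hdP']
  have hXd : X * d = d * X := by
    rw [hX, sub_mul, mul_sub, hPd, hdP, smul_mul_assoc, mul_smul_comm, hΔcd]
  have hXd' : X * d' = d' * X := by
    rw [hX, sub_mul, mul_sub, hPd', hdP', smul_mul_assoc, mul_smul_comm, hΔcd']
  have hPX : P * X = X := by
    rw [hX, mul_sub, hPP, mul_smul_comm, hPΔ]
  have hXP : X * P = X := by
    rw [hX, sub_mul, hPP, smul_mul_assoc, hΔP]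
  have hed : ε * d = -(d * ε) := by
    rw [hd, ← mul_assoc, heD, neg_mul, mul_assoc, heP, mul_assoc]
  have hed' : ε * d' = -(d' * ε) := by
    rw [hd', ← mul_assoc, heP, mul_assoc, heD', mul_neg, mul_assoc]
  -- the sequence
  obtain ⟨Y, hY0, hYs⟩ : ∃ Y : ℕ → R, Y 0 = P ∧ ∀ n, Y (n + 1) = Y n * X :=
    ⟨fun n => P * X ^ n, by simp, fun n => by simp only [pow_succ, mul_assoc]⟩
  have hYm : ∀ n, Y n ∈ 𝒜 := by
    intro n
    induction n with
    | zero => rw [hY0]; exact hP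
    | succ n ih => rw [hYs]; exact hmul _ ih _ hXm
  have hYP : ∀ n, Y n * P = Y n := by
    intro n
    cases n with
    | zero => rw [hY0, hPP]
    | succ n => rw [hYs, mul_assoc, hXP]
  have hYd : ∀ n, Y n * d = d * Y n := by
    intro n
    induction n with
    | zero => rw [hY0, hPd, hdP]
    | succ n ih => rw [hYs, mul_assoc, hXd, ← mul_assoc, ih, mul_assoc]
  have hYd' : ∀ n, Y n * d' = d' * Y n := by
    intro n
    induction n with
    | zero => rw [hY0, hPd', hdP']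
    | succ n ih => rw [hYs, mul_assoc, hXd', ← mul_assoc, ih, mul_assoc]
  have hYn : ∀ n, ‖Y n‖ ≤ ‖P‖ * ‖X‖ ^ n := by
    intro n
    induction n with
    | zero => rw [hY0, pow_zero, mul_one]
    | succ n ih =>
      rw [hYs, pow_succ, ← mul_assoc]
      exact (norm_mul_le _ _).trans (mul_le_mul_of_nonneg_right ih (norm_nonneg _))
  have hdiff : ∀ n, Y n - Y (n + 1) = c • (Y n * Δ) := by
    intro n
    rw [hYs]
    conv_lhs => rw [← hYP n]
    rw [mul_assoc, hPX, ← mul_sub, hX, sub_sub_cancel, mul_smul_comm]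
  have hz : ∀ n, τ (ε * (Y n * Δ)) = 0 := by
    intro n
    have e1 : τ (ε * (Y n * (d * d'))) = -τ (ε * (Y n * (d' * d))) := by
      have a1 : ε * (Y n * (d * d')) = (ε * (Y n * d)) * d' := by simp only [mul_assoc]
      rw [a1, htr _ (hmul _ hε _ (hmul _ (hYm n) _ hdm)) _ hdm']
      have a2 : d' * (ε * (Y n * d)) = -(ε * (Y n * (d' * d))) := by
        calc d' * (ε * (Y n * d)) = (d' * ε) * (Y n * d) := by rw [mul_assoc]
          _ = -((ε * d') * (Y n * d)) := by rw [hed', neg_mul, neg_neg]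
          _ = -(ε * ((d' * Y n) * d)) := by simp only [mul_assoc]
          _ = -(ε * (Y n * (d' * d))) := by rw [← hYd', mul_assoc]
      rw [a2, map_neg]
    rw [hΔd, mul_add, mul_add, map_add, e1, add_neg_cancel]
  have hconst : ∀ n, τ (ε * Y n) = τ (ε * P) := by
    intro n
    induction n with
    | zero => rw [hY0]
    | succ n ih =>
      rw [← ih]
      have e1 : Y (n + 1) = Y n - c • (Y n * Δ) := by rw [← hdiff n, sub_sub_cancel]
      rw [e1, mul_sub, map_sub, mul_smul_comm, map_smul, hz, smul_zero, sub_zero]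
  have hb : ∀ n, ‖τ (ε * P)‖ ≤ |K| * (‖ε‖ * ‖P‖) * ‖X‖ ^ n := by
    intro n
    rw [← hconst n]
    calc ‖τ (ε * Y n)‖ ≤ K * ‖ε * Y n‖ := hK _
      _ ≤ |K| * ‖ε * Y n‖ := by gcongr; exact le_abs_self K
      _ ≤ |K| * (‖ε‖ * (‖P‖ * ‖X‖ ^ n)) := by
        gcongr
        exact (norm_mul_le _ _).trans (by gcongr; exact hYn n)
      _ = _ := by ring
  have hlim : Tendsto (fun n : ℕ => |K| * (‖ε‖ * ‖P‖) * ‖X‖ ^ n) atTop (𝓝 0) := by
    have := (tendsto_pow_atTop_nhds_zero_of_lt_one (norm_nonneg X) hn).const_mul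
      (|K| * (‖ε‖ * ‖P‖))
    rwa [mul_zero] at this
  have h0 : ‖τ (ε * P)‖ ≤ 0 := ge_of_tendsto' hlim hb
  exact norm_le_zero_iff.1 h0

theorem t_SUPER {V : Type} [NormedAddCommGroup V] [NormedSpace ℂ V] : S_SUPER V := by
  intro 𝒜 τ K hadd hmul hsm htr hK P D D' ε hP hD hD' hε hPP hPDP hPDP' hDDP hPDD heP heD heD' c hn
  exact super_ring (R := V →L[ℂ] V) 𝒜 τ K hadd hmul hsm htr hK P D D' ε hP hD hD' hε hPP hPDP hPDP'
    hDDP hPDD heP heD heD' c hn

theorem t_ANA : S_ANA := by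
  intro I G _ U a b σ ha hb hU h
  obtain ⟨η, hη, h⟩ := h
  have han : AnalyticOnNhd ℝ (fun t : ℝ => ∑ j, σ j / ∑ u ∈ U j, a u * b u ^ t) Set.univ := by
    intro t _
    refine Finset.analyticAt_fun_sum _ fun j _ => ?_
    refine AnalyticAt.fun_div analyticAt_const ?_ ?_
    · refine Finset.analyticAt_fun_sum _ fun u _ => ?_
      refine AnalyticAt.fun_mul analyticAt_const ?_
      have e : (fun t : ℝ => b u ^ t) = fun t => Real.exp (Real.log (b u) * t) := by
        funext t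
        rw [Real.rpow_def_of_pos (hb u)]
      change AnalyticAt ℝ (fun t : ℝ => b u ^ t) t
      rw [e]
      exact AnalyticAt.rexp' (analyticAt_const.fun_mul analyticAt_id)
    · have : 0 < ∑ u ∈ U j, a u * b u ^ t :=
        Finset.sum_pos (fun u _ => mul_pos (ha u) (Real.rpow_pos_of_pos (hb u) t)) (hU j)
      exact this.ne'
  have h0 : (fun t : ℝ => ∑ j, σ j / ∑ u ∈ U j, a u * b u ^ t) =ᶠ[𝓝 0] 0 := by
    filter_upwards [Metric.ball_mem_nhds (0 : ℝ) hη] with t ht
    rw [Metric.mem_ball, Real.dist_eq, sub_zero] at ht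
    exact h t ht
  intro t
  exact han.eqOn_zero_of_preconnected_of_eventuallyEq_zero isPreconnected_univ (Set.mem_univ 0) h0
    (Set.mem_univ t)

theorem t_LIM : S_LIM := by
  intro I G _ U o len σ ho hl h
  have hlo : ∀ j, len o = 0 := fun j => (hl j o (ho j)).2 rfl
  constructor
  · have h1 : Tendsto (fun r : ℝ => ∑ j, σ j / ∑ u ∈ U j, r ^ len u) (𝓝[>] 0)
        (𝓝 (∑ j, σ j / ∑ u ∈ U j, (0 : ℝ) ^ len u)) := by
      refine tendsto_finsetSum _ fun j _ => ?_
      have hs : ∑ u ∈ U j, (0 : ℝ) ^ len u = 1 := by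
        rw [Finset.sum_eq_single o]
        · rw [hlo j, pow_zero]
        · intro u hu huo
          rw [zero_pow]
          exact fun h0 => huo ((hl j u hu).1 h0)
        · intro h0
          exact absurd (ho j) h0
      refine Tendsto.div tendsto_const_nhds ?_ (by rw [hs]; exact one_ne_zero)
      refine Tendsto.mono_left ?_ nhdsWithin_le_nhds
      exact (continuous_finsetSum _ fun u _ => continuous_pow (len u)).tendsto 0
    have h2 : Tendsto (fun r : ℝ => ∑ j, σ j / ∑ u ∈ U j, r ^ len u) (𝓝[>] 0) (𝓝 0) := by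
      refine tendsto_const_nhds.congr' ?_
      filter_upwards [self_mem_nhdsWithin] with r hr
      exact (h r hr).symm
    have h3 := tendsto_nhds_unique h1 h2
    rw [← h3]
    refine Finset.sum_congr rfl fun j _ => ?_
    have hs : ∑ u ∈ U j, (0 : ℝ) ^ len u = 1 := by
      rw [Finset.sum_eq_single o]
      · rw [hlo j, pow_zero]
      · intro u hu huo
        rw [zero_pow]
        exact fun h0 => huo ((hl j u hu).1 h0)
      · intro h0
        exact absurd (ho j) h0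
    rw [hs, div_one]
  · have h1 : Tendsto (fun r : ℝ => ∑ j, σ j / ∑ u ∈ U j, r ^ len u) atTop
        (𝓝 (∑ j, if (U j).card = 1 then σ j else 0)) := by
      refine tendsto_finsetSum _ fun j _ => ?_
      by_cases hc : (U j).card = 1
      · rw [if_pos hc]
        obtain ⟨x, hx⟩ := Finset.card_eq_one.1 hc
        have hxo : x = o := by
          have := ho j
          rw [hx, Finset.mem_singleton] at this
          exact this.symm
        rw [hx, hxo]
        simp only [Finset.sum_singleton, hlo j, pow_zero, div_one]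
        exact tendsto_const_nhds
      · rw [if_neg hc]
        obtain ⟨u, hu, huo⟩ : ∃ u ∈ U j, u ≠ o := by
          by_contra hcon
          push Not at hcon
          apply hc
          rw [Finset.card_eq_one]
          exact ⟨o, Finset.eq_singleton_iff_unique_mem.2 ⟨ho j, hcon⟩⟩
        have hlu : 1 ≤ len u := by
          have : len u ≠ 0 := fun h0 => huo ((hl j u hu).1 h0)
          omega
        refine Tendsto.div_atTop tendsto_const_nhds ?_
        refine tendsto_atTop_mono' _ ?_ tendsto_id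
        filter_upwards [eventually_ge_atTop (1 : ℝ)] with r hr
        calc r = r ^ 1 := (pow_one r).symm
          _ ≤ r ^ len u := pow_le_pow_right₀ hr hlu
          _ ≤ ∑ u ∈ U j, r ^ len u :=
            Finset.single_le_sum (f := fun u => r ^ len u) (fun u _ => by positivity) hu
    have h2 : Tendsto (fun r : ℝ => ∑ j, σ j / ∑ u ∈ U j, r ^ len u) atTop (𝓝 0) := by
      refine tendsto_const_nhds.congr' ?_
      filter_upwards [eventually_gt_atTop (0 : ℝ)] with r hr
      exact (h r hr).symm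
    exact tendsto_nhds_unique h1 h2

end Run7.h854.ZD
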