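import Pool.Agent.Run7.h854.ZD.Res
import Pool.Agent.Run7.h854.ZD.Gap
import Pool.Agent.Run7.h854.ZD.Sup
import Pool.Agent.Run7.h854.ZD.Eng
import Pool.Agent.Run7.h604.ZDBdd
import Pool.Agent.Run7.h604.ZDComm
import Pool.Agent.Run7.h604.ZDDic
import Pool.Agent.Run7.h604.ZDTrace
import Pool.Agent.Run7.h604.ZDUp
import Pool.Agent.Run7.h604.ZDWte
import Pool.Agent.Run7.h67.ZD.Cell
import Pool.Agent.Run7.h67.ZD.Ext
import Pool.Agent.Q241.ZD.Ltwo
import Pool.Agent.Q169.PT.TF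

/-! # Zero in the spectrum by deformation of the Hecke parameters: the assembly -/

set_option autoImplicit false

namespace Run7.h854.ZD

open Pool.Agent.H919R4.ZS (FinRes toRed)
open Pool.Agent.TH38.ZT (ExAt exAt_iff)
open Pool.Agent.TH38.CX (AcyclicGComplex)
open Pool.Agent.Q169.ZD

noncomputable section

open scoped Classical

/-- The growth sum `∑_(w ∈ W_T) q w` of a (finite) special subgroup. -/
def growth {B : Type} {M : CoxeterMatrix B} {W : Type} [Group W] (cs : CoxeterSystem M W)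
    (q : W → ℝ) (T : Set B) : ℝ := ∑ᶠ w ∈ par cs T, q w

section

variable {B : Type} {M : CoxeterMatrix B} {W : Type} [Group W] (cs : CoxeterSystem M W)
    {H : Type} [Group H] [MulAction H B] (φ : H →* MulAut W)

/-- the special subgroup in the semidirect product -/
theorem mem_clos (T : Set B) (g : W ⋊[φ] H) :
    g ∈ Subgroup.closure {s : W ⋊[φ] H | ∃ b ∈ T, s = ⟨cs.simple b, 1⟩} ↔
      g.left ∈ par cs T ∧ g.right = 1 := by
  have h1 : {s : W ⋊[φ] H | ∃ b ∈ T, s = ⟨cs.simple b, 1⟩} =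
      (SemidirectProduct.inl : W →* W ⋊[φ] H) '' (cs.simple '' T) := by
    ext s
    constructor
    · rintro ⟨b, hb, rfl⟩
      exact ⟨cs.simple b, ⟨b, hb, rfl⟩, rfl⟩
    · rintro ⟨_, ⟨b, hb, rfl⟩, rfl⟩
      exact ⟨b, hb, rfl⟩
  rw [h1, ← MonoidHom.map_closure, Subgroup.mem_map]
  constructor
  · rintro ⟨w, hw, rfl⟩
    exact ⟨hw, rfl⟩
  · rintro ⟨hw, hr⟩
    exact ⟨g.left, hw, SemidirectProduct.ext rfl hr.symm⟩

theorem card_eq_one_iff (T : Set B) (U : Finset (W ⋊[φ] H))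
    (hU : ∀ g, g ∈ U ↔ g ∈ Subgroup.closure {s : W ⋊[φ] H | ∃ b ∈ T, s = ⟨cs.simple b, 1⟩}) :
    U.card = 1 ↔ T = ∅ := by
  have h1 : (1 : W ⋊[φ] H) ∈ U := (hU 1).2 (one_mem _)
  constructor
  · intro hc
    obtain ⟨x, hx⟩ := Finset.card_eq_one.1 hc
    have hx1 : x = 1 := by
      rw [hx, Finset.mem_singleton] at h1
      exact h1.symm
    rw [Set.eq_empty_iff_forall_notMem]
    intro b hb
    have h2 : (⟨cs.simple b, 1⟩ : W ⋊[φ] H) ∈ U :=
      (hU _).2 (Subgroup.subset_closure ⟨b, hb, rfl⟩)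
    rw [hx, Finset.mem_singleton, hx1] at h2
    have h3 := congrArg SemidirectProduct.left h2
    change cs.simple b = 1 at h3
    have h4 := cs.length_simple b
    rw [h3, cs.length_one] at h4
    exact absurd h4 zero_ne_one
  · intro hT
    rw [Finset.card_eq_one]
    refine ⟨1, Finset.eq_singleton_iff_unique_mem.2 ⟨h1, fun g hg => ?_⟩⟩
    have h2 := (hU g).1 hg
    rw [mem_clos] at h2
    obtain ⟨h3, h4⟩ := h2
    rw [hT] at h3
    unfold par at h3
    rw [Set.image_empty, Subgroup.closure_empty, Subgroup.mem_bot] at h3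
    exact SemidirectProduct.ext h3 h4

theorem sum_eq_growth (T : Set B) (q : W → ℝ) (U : Finset (W ⋊[φ] H))
    (hU : ∀ g, g ∈ U ↔ g ∈ Subgroup.closure {s : W ⋊[φ] H | ∃ b ∈ T, s = ⟨cs.simple b, 1⟩}) :
    ∑ u ∈ U, q u.left = growth cs q T := by
  unfold growth
  have h1 : ∑ u ∈ U, q u.left = ∑ w ∈ U.image (fun u => u.left), q w := by
    rw [Finset.sum_image]
    intro x hx y hy hxy
    have hx' := ((mem_clos cs φ T x).1 ((hU x).1 hx)).2
    have hy' := ((mem_clos cs φ T y).1 ((hU y).1 hy)).2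
    exact SemidirectProduct.ext hxy (hx'.trans hy'.symm)
  rw [h1, ← finsum_mem_coe_finset]
  have h2 : ((U.image (fun u => u.left) : Finset W) : Set W) = (par cs T : Set W) := by
    ext w
    rw [Finset.mem_coe, Finset.mem_image]
    constructor
    · rintro ⟨u, hu, rfl⟩
      exact ((mem_clos cs φ T u).1 ((hU u).1 hu)).1
    · intro hw
      exact ⟨⟨w, 1⟩, (hU _).2 ((mem_clos cs φ T _).2 ⟨hw, rfl⟩), rfl⟩
  rw [h2]
  rfl

end

theorem main {B : Type} {M : CoxeterMatrix B} {W : Type} [Group W] (cs : CoxeterSystem M W)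
    {H : Type} [Group H] [MulAction H B] (φ : H →* MulAut W)
    (hφ : ∀ h b, φ h (cs.simple b) = cs.simple (h • b))
    (Y : Mirrored H B) (hY : IsAcyclic cs Y)
    (hfin : ∀ i (e : Y.E i), ((par cs (Y.mir i e) : Subgroup W) : Set W).Finite)
    {N : Type} [Group N] (f : N →* W ⋊[φ] H) (hf : Function.Injective f)
    (hfi : f.range.FiniteIndex) (X : FinRes N)
    (hX : ∀ i, Subsingleton (X.homology (toRed N) i)) :
    (∀ q : W → ℝ, IsWeight cs q → (∀ h w, q (φ h w) = q w) →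
      ∑ i ∈ Finset.range (Y.len + 1), ∑ a : Fin (Y.c i),
        (-1 : ℝ) ^ i / growth cs q (Y.mir i (Y.rep i a)) = 0) ∧
    ∑ i ∈ Finset.range (Y.len + 1), (-1 : ℝ) ^ i * Y.c i = 0 ∧
    ∑ i ∈ Finset.range (Y.len + 1), (-1 : ℝ) ^ i *
      (Finset.univ.filter fun a : Fin (Y.c i) => Y.mir i (Y.rep i a) = ∅).card = 0 := by
  obtain ⟨E, hS, hlen⟩ := Pool.Agent.Run7.h67.ZD.t_EXT B M W cs H φ hφ
  obtain ⟨U, κ, k1, k2, k3, k4⟩ := Pool.Agent.Run7.h67.ZD.t_CELL B M W cs H φ hφ Y hY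
  have htf : ∀ n : N, IsOfFinOrder n → n = 1 := fun n hn => Pool.Agent.Q169.PT.TFr.tf N X n hn
  have hfree : ∀ i (n : N) (e : U.E i), f n • e = e → n = 1 := by
    intro i n x hx
    obtain ⟨e, w, rfl⟩ := k1 i x
    rw [k3, k2] at hx
    obtain ⟨h1, h2⟩ := hx
    have h3 := Y.free i _ e h1
    rw [h3, map_one, MulAut.one_apply] at h2
    have hpar : w⁻¹ * (f n).left * w ∈ par cs (Y.mir i e) := by
      have h4 := inv_mem h2
      have h6 : (1 : H) • e = e := one_smul H e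
      rw [h6] at h4
      have h5 : (((f n).left * w)⁻¹ * w)⁻¹ = w⁻¹ * (f n).left * w := by group
      rwa [h5] at h4
    have hfo : IsOfFinOrder (w⁻¹ * (f n).left * w) := by
      have : Finite (par cs (Y.mir i e)) := (hfin i e).to_subtype
      have h6 := isOfFinOrder_of_finite (⟨_, hpar⟩ : par cs (Y.mir i e))
      exact MonoidHom.isOfFinOrder (par cs (Y.mir i e)).subtype h6
    have hfo2 : IsOfFinOrder (f n).left := by
      rw [isOfFinOrder_iff_pow_eq_one] at hfo ⊢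
      obtain ⟨m, hm, hm'⟩ := hfo
      refine ⟨m, hm, ?_⟩
      have h7 : w⁻¹ * (f n).left * w = w⁻¹ * (f n).left * (w⁻¹)⁻¹ := by rw [inv_inv]
      rw [h7, conj_pow] at hm'
      have h8 := congrArg (fun z => w * z * w⁻¹) hm'
      simpa [mul_assoc] using h8
    apply htf
    have hfn : f n = SemidirectProduct.inl (f n).left := SemidirectProduct.ext rfl h3
    have h9 : IsOfFinOrder (f n) := by
      rw [hfn]
      exact MonoidHom.isOfFinOrder _ hfo2
    exact (Function.Injective.isOfFinOrder_iff hf).1 h9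
  have hL : L2Ex U.E (fun i => U.bd i) := by
    refine t_SUB (Pool.Agent.Q241.ZD.ltwo t_RES) (W ⋊[φ] H) U N f hfi hfree Y.c
      (fun i a => κ i (Y.rep i a) 1) ?_ X (fun i => (exAt_iff X (toRed N) i).2 (hX i))
    intro i x
    obtain ⟨e, w, rfl⟩ := k1 i x
    obtain ⟨a, ⟨h, rfl⟩, -⟩ := Y.rep_unique i e
    refine ⟨a, ⟨⟨w, h⟩, ?_⟩⟩
    simp only
    rw [k3, map_one, mul_one]
  obtain ⟨C, hdeg, hT, hEx⟩ := t_DIC B M W cs H φ hφ Y hfin (t_BDD B M W cs H Y hY) E hS hlen U κ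
    k1 k2 k3 k4 hL
  have hchi := fun p hp => t_ENG (W ⋊[φ] H) E (Σ i : Fin (Y.len + 1), Fin (Y.c i)) C (t_UP _ E _ C)
    (t_PROJ' _ E _ C) (t_CONT _ E _ C) (t_RIGHT _ E _ C) (t_COMM' _ E _ C) (t_TRACE _ E _)
    t_GAP t_SMALL t_SUPER t_ANA (t_DPROP _ E _ C) hEx p hp
  obtain ⟨w1, w2⟩ := t_WTE B M W cs H φ hφ E hS hlen
  have hU : ∀ j g, g ∈ C.U j ↔ g ∈ Subgroup.closure
      {s : W ⋊[φ] H | ∃ b ∈ Y.mir j.1 (Y.rep j.1 j.2), s = ⟨cs.simple b, 1⟩} := by
    intro j g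
    rw [C.mem_U, hT]
  have hlim := t_LIM (Σ i : Fin (Y.len + 1), Fin (Y.c i)) (W ⋊[φ] H) C.U 1 E.len
    (fun j => (-1 : ℝ) ^ C.deg j) (fun j => (C.mem_U j 1).2 (one_mem _)) (by
      intro j u hu
      rw [hlen]
      have h1 := (mem_clos cs φ _ u).1 ((hU j u).1 hu)
      rw [cs.length_eq_zero_iff]
      constructor
      · intro h2
        exact SemidirectProduct.ext h2 h1.2
      · intro h2
        rw [h2]
        rfl) (by
      intro r hr
      rw [← hchi _ (w1 _ (w2 r hr).1 (w2 r hr).2)]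
      refine Finset.sum_congr rfl fun j _ => ?_
      congr 1
      unfold Cx.wt
      refine Finset.sum_congr rfl fun u _ => ?_
      rw [hlen])
  refine ⟨fun q hq hi => ?_, ?_, ?_⟩
  · rw [← hchi _ (w1 q hq hi), Fintype.sum_sigma, Finset.sum_range]
    refine Finset.sum_congr rfl fun i _ => Finset.sum_congr rfl fun a _ => ?_
    rw [hdeg]
    congr 1
    unfold Cx.wt
    exact (sum_eq_growth cs φ _ q _ (hU ⟨i, a⟩)).symm
  · rw [← hlim.1, Fintype.sum_sigma, Finset.sum_range]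
    refine Finset.sum_congr rfl fun i _ => ?_
    have hs : ∀ a : Fin (Y.c i), (-1 : ℝ) ^ C.deg ⟨i, a⟩ = (-1 : ℝ) ^ (i : ℕ) := fun a => by
      rw [hdeg]
    rw [Finset.sum_congr rfl fun a _ => hs a, Finset.sum_const, Finset.card_univ,
      Fintype.card_fin, nsmul_eq_mul, mul_comm]
  · rw [← hlim.2, Fintype.sum_sigma, Finset.sum_range]
    refine Finset.sum_congr rfl fun i _ => ?_
    have hs : ∀ a : Fin (Y.c i), (-1 : ℝ) ^ C.deg ⟨i, a⟩ = (-1 : ℝ) ^ (i : ℕ) := fun a => by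
      rw [hdeg]
    rw [← Finset.sum_filter, Finset.sum_congr rfl fun a _ => hs a, Finset.sum_const,
      nsmul_eq_mul, mul_comm]
    congr 3
    refine Finset.filter_congr fun a _ => ?_
    exact (card_eq_one_iff cs φ _ _ (hU ⟨i, a⟩)).symm

end

end Run7.h854.ZD
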