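import Pool.Agent.Q169.ZD.Stm
import Pool.Agent.Q169.ZD.Stm2

/-!
# Project ZD, part 3: statements of the jobs ENG, SUB, DIC, WTE, LIM which assemble the starting
statements of `Pool/Agent/Q169/ZD/Stm.lean` and `Pool/Agent/Q169/ZD/Stm2.lean`.
-/

set_option autoImplicit false

open scoped InnerProductSpace

namespace Run7.h854.ZD

open Pool.Agent.H919R4.ZS (FinRes toRed)
open Pool.Agent.TH38.ZT (ExAt)
open Pool.Agent.TH38.CX (AcyclicGComplex)
open Pool.Agent.H496R3.ZS (Ell permIso dl dl_apply inner_dl_left)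
open Pool.Agent.Q169.ZD

noncomputable section

/-- **JOB ENG** (hypotheses: UP, PROJ, CONT, RIGHT, COMM, TRACE, GAP, SMALL, SUPER, ANA, DPROP, for
the given data). If the complex `M(1)` is exact, then the weighted Euler characteristic of the
complex vanishes for every weight function.

PROOF. Let `P = C.P (fun _ => 1)`, `D = C.Dh`. `fun _ => 1` is a weight function. By PROJ and DPROP
`P ∘ P = P`, `adjoint P = P`, `P D P = D P`, `D D P = 0`, and `P x = x`, `D x = 0` implies
`x = D y` with `P y = y` (`Exact`, `Dh F p = dop C.D F p`). GAP gives `K`, SMALL gives `c ≠ 0` with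
`‖A 0‖ < 1`, where `P_t = C.P (fun g => 1 * p g ^ t)`,
`A t = P_t - c • (P_t ∘ Ds ∘ D ∘ P_t + D ∘ P_t ∘ Ds)` (`p g ^ (0 : ℝ) = 1`). By CONT `t ↦ ‖A t‖` is
continuous, so there is `η > 0` with `‖A t‖ < 1` for `|t| < η`. Apply SUPER with
`𝒜 = {x | Comm E I q_t x ∧ FS x}`, `τ = Tr` (a linear functional; `‖Tr x‖ ≤ card I * ‖x‖`),
`D' = Ds`, `ε = C.eps`: `Tr (eps ∘ P_t) = 0`. And `Tr (eps ∘ P_t) = ∑_j (-1)^(deg j) / wt q_t j` by
PROJ (4). So `∑_j (-1)^(deg j) / ∑_(u ∈ U j) 1 * p u ^ t = 0` for `|t| < η`, by ANA for `t = 1`. -/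
def S_ENG : Prop :=
  ∀ (G : Type) [Group G] (E : Ext G) (I : Type) [Fintype I] (C : Cx E I),
    S_UP G E I C → S_PROJ G E I C → S_CONT G E I C → S_RIGHT G E I C → S_COMM G E I C →
    S_TRACE G E I → S_GAP (Ell (I × G)) → S_SMALL (Ell (I × G)) → S_SUPER (Ell (I × G)) → S_ANA →
    S_DPROP G E I C →
    C.Exact (fun _ => 1) → ∀ p : G → ℝ, Wt E p → ∑ j : I, (-1 : ℝ) ^ C.deg j / C.wt p j = 0

/-- **JOB SUB** (hypothesis: LTWO, which is proved in Q241/ZD/Ltwo.lean from RES). If all
`H_i(X; C*_r(N))` vanish for a group `N` which is embedded with finite index in `G` and acts freely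
on the acyclic `G`-complex `U` with finitely many orbits, then the complex of square summable
cochains of `U` is exact.

PROOF. Let `U' : AcyclicGComplex N` have the cells and the boundary maps of `U` and the action
`n • e = f n • e` (`MulAction.compHom`). Then `L2Ex U'.E U'.bd` is by definition
`L2Ex U.E U.bd`, and LTWO applies once we have `c'`, `rep'`. For each `i` the quotient
`MulAction.orbitRel.Quotient N (U'.E i)` is finite: every cell is `g • rep i a`, and
`g = f n * g_k` with `g_k` in a finite set of representatives of the right cosets of `f.range`, so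
every cell is in the `N`-orbit of one of the finitely many cells `g_k • rep i a`. Take
`c' i = Fintype.card` of the quotient and `rep'` = a choice of representatives. -/
def S_SUB : Prop :=
  ∀ (G : Type) [Group G] (U : AcyclicGComplex G) (N : Type) [Group N] (f : N →* G),
    f.range.FiniteIndex → (∀ i (n : N) (e : U.E i), f n • e = e → n = 1) →
    ∀ (c : ℕ → ℕ) (rep : ∀ i, Fin (c i) → U.E i),
    (∀ i (e : U.E i), ∃ a, e ∈ MulAction.orbit G (rep i a)) →
    ∀ X : FinRes N, (∀ i, ExAt X (toRed N) i) → L2Ex U.E (fun i => U.bd i)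

/-- **JOB DIC**. The complex `M(1)` for the reflection construction: `j = (i, a)` runs over the
`H`-orbits of the cells of `Y`, `T j` is the set of the reflections in the mirrors of `rep i a`.

PROOF. `C.D j k h` (for `j = (i + 1, a)`, `k = (i, b)`, `h ∈ W ⋊ H`) is `bd (rep j) (h' • rep k)` if
`h = (1, h')`, and `0` otherwise (also `0` if the degrees do not match); it has finite support since
`h' ↦ h' • rep k` is injective (the action of `H` is free). Equivalently `C.D j k` is the
`mapDomain` of a finitely supported function on `H` under `h' ↦ ⟨1, h'⟩`. `D_len`: the length of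
`⟨1, h'⟩` is `0`. `D_mir`: the face `h' • rep k` of `rep j` is in the mirrors of `rep j`
(`mir_face`), and `mir (h' • rep k) = h' • mir (rep k)`; `h⁻¹ (s_b, 1) h = (s_(h'⁻¹ b), 1)` by `hφ`.
`fin`: `closure T j` is the image of the finite group `par cs (mir (rep j))` under
`w ↦ ⟨w, 1⟩`. The map `x_(j) g = g⁻¹ • κ i (rep j) 1`: every `i`-cell of `U` is of the form
`g⁻¹ • κ i (rep j) 1`, and `g⁻¹ • κ (rep j) 1 = g'⁻¹ • κ (rep k) 1` iff `j = k` and
`g' g⁻¹ ∈ closure (T j)` (`κ i e w = κ i e' w' ↔ ...`, freeness of the action of `H` on `Y`). For a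
cochain `c` of `U` (all degrees, `c i : U.E i → ℂ`) let `F (j, g) = c (g⁻¹ • κ (rep j) 1)`; this is a
bijection between the families `c` of functions and the functions `F` on `I × G` with
`F (j, t g) = F (j, g)` for `t ∈ T j`, which is `InM C (fun _ => 1)` (`√1 = 1`; if
`ℓ(t g) < ℓ(g)` apply the condition to `t g`), square summable functions correspond to square
summable ones (the fibres of `(j, g) ↦ g⁻¹ • κ (rep j) 1` are the finite sets `closure (T j) g`), and
the coboundary corresponds to `dop C.D`: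
`(δ c) (g⁻¹ κ (rep j) 1) = ∑_k ∑_(h') D j k h' c (g⁻¹ h' κ (rep k) 1) = ∑ D j k h' F (k, h'⁻¹ g)`.
So `D_sq` holds: from `∂ ∂ = 0` of `U` for `M(1)`; for all functions `F` on `I × G`: `D_sq` is a
statement on the coefficients, `∑_k ∑_(h h' = g) D i k h * D k j h' = 0`, which is
`∂ ∂ (rep i) = 0` in `Y` (evaluate at the coefficient of `g • rep j`); `∂ ∂ = 0` in `Y`: see
`hdd`. And `Exact`: `dop C.D F = 0` for `F ∈ M(1)` means `δ c = 0` in each degree; the component of
degree `0` vanishes by the first part of `L2Ex`, the component of degree `i + 1` is `δ c'_i` by the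
second part (`c'_i` square summable), and `F'` is the function which corresponds to `c'`. -/
def S_DIC : Prop :=
  ∀ (B : Type) (M : CoxeterMatrix B) (W : Type) [Group W] (cs : CoxeterSystem M W)
    (H : Type) [Group H] [MulAction H B] (φ : H →* MulAut W),
    (∀ h b, φ h (cs.simple b) = cs.simple (h • b)) →
    ∀ Y : Mirrored H B, (∀ i (e : Y.E i), ((par cs (Y.mir i e) : Subgroup W) : Set W).Finite) →
    (∀ (i : ℕ) (e : Y.E (i + 2)), ((Y.bd (i + 1) e).sum fun f n => n • Y.bd i f) = 0) →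
    ∀ E : Ext (W ⋊[φ] H), E.S = {s | ∃ b : B, s = ⟨cs.simple b, 1⟩} →
    (∀ g, E.len g = cs.length g.left) →
    ∀ (U : AcyclicGComplex (W ⋊[φ] H)) (κ : ∀ i, Y.E i → W → U.E i),
      (∀ i (x : U.E i), ∃ e w, x = κ i e w) →
      (∀ i e e' w w', κ i e w = κ i e' w' ↔ e = e' ∧ w⁻¹ * w' ∈ par cs (Y.mir i e)) →
      (∀ i (g : W ⋊[φ] H) e w, g • κ i e w = κ i (g.right • e) (g.left * φ g.right w)) →
      (∀ i e w, U.bd i (Finsupp.single (κ (i + 1) e w) 1) =
        (Y.bd i e).mapDomain (fun f => κ i f w)) →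
    L2Ex U.E (fun i => U.bd i) →
    ∃ C : Cx E (Σ i : Fin (Y.len + 1), Fin (Y.c i)),
      (∀ j, C.deg j = j.1) ∧
      (∀ j, C.T j = {s | ∃ b ∈ Y.mir j.1 (Y.rep j.1 j.2), s = ⟨cs.simple b, 1⟩}) ∧
      C.Exact (fun _ => 1)

/-- **JOB BDD**. In the reflection construction `∂ ∂ = 0` in `Y` if it holds in `𝒰(W, Y)`.

PROOF. `IsAcyclic.exact_succ` gives `bdU (bdU y) = 0`. Apply it to `y = single (cell e 1) 1`:
`bdCell (cell e 1) = (bd e).mapDomain (fun f => cell f v)` with `v = (mk 1).out ∈ par (mir e)`, and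
for a face `f` of `e` one has `cell f v = cell f 1`. Then map `𝒰(W, Y) → Y`, `(e, wW_e) ↦ e`
(`mapDomain` of the first projection): it commutes with the boundaries. So `∂ ∂ e = 0`. -/
def S_BDD : Prop :=
  ∀ (B : Type) (M : CoxeterMatrix B) (W : Type) [Group W] (cs : CoxeterSystem M W)
    (H : Type) [Group H] [MulAction H B] (Y : Mirrored H B), IsAcyclic cs Y →
    ∀ (i : ℕ) (e : Y.E (i + 2)), ((Y.bd (i + 1) e).sum fun f n => n • Y.bd i f) = 0

/-- **JOB WTE**. An `H`-invariant weight function `q` of `W` gives a weight function of `W ⋊ H`, and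
`r ^ ℓ(w)` is an `H`-invariant weight function.

PROOF. `(w, h) (s_b, 1) = (w φ_h s_b, h) = (w s_(h b), h)`, so `mul` is `IsWeight.mul_simple` (and
`q (s_(h b)) = q (φ h s_b) = q s_b`), `smul` is `simple_mul`; `len (w, h) = 0` means `w = 1`:
`zero_mul`: `q (1 * φ_h w) = q w`. For `q w = r ^ ℓ(w)`: `ℓ(s w) > ℓ(w)` implies
`ℓ(s w) = ℓ(w) + 1` (`cs.length_simple_mul`), `ℓ(s) = 1`; `ℓ(φ_h w) = ℓ(w)` since `E.len` is
`ℓ(left)` and `len` is invariant under multiplication with elements of length `0`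
(`E.len_mul`, `E.len_inv`). -/
def S_WTE : Prop :=
  ∀ (B : Type) (M : CoxeterMatrix B) (W : Type) [Group W] (cs : CoxeterSystem M W)
    (H : Type) [Group H] [MulAction H B] (φ : H →* MulAut W),
    (∀ h b, φ h (cs.simple b) = cs.simple (h • b)) →
    ∀ E : Ext (W ⋊[φ] H), E.S = {s | ∃ b : B, s = ⟨cs.simple b, 1⟩} →
    (∀ g, E.len g = cs.length g.left) →
    (∀ q : W → ℝ, IsWeight cs q → (∀ h w, q (φ h w) = q w) → Wt E (fun g => q g.left)) ∧
    ∀ r : ℝ, 0 < r → IsWeight cs (fun w => r ^ cs.length w) ∧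
      ∀ h w, r ^ cs.length (φ h w) = r ^ cs.length w

/-- **JOB LIM**. The limits `r → 0` and `r → ∞` of the weighted Euler characteristic.

PROOF. `ℓ j u` is the length of `u ∈ U j`; exactly one element has length `0`. So
`∑_u r ^ ℓ(u) → 1` as `r → 0` (a polynomial in `r`: continuity at `0` and `0 ^ 0 = 1`). As
`r → ∞` the sum is `1` if `U j` has one element and tends to `∞` otherwise (it is at least
`r ^ 1` for `r ≥ 1`). A limit of a function which is identically zero on `(0, ∞)` is zero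
(`tendsto_nhds_unique`). -/
def S_LIM : Prop :=
  ∀ (I G : Type) [Fintype I] (U : I → Finset G) (o : G) (len : G → ℕ) (σ : I → ℝ),
    (∀ j, o ∈ U j) → (∀ j, ∀ u ∈ U j, len u = 0 ↔ u = o) →
    (∀ r : ℝ, 0 < r → ∑ j, σ j / ∑ u ∈ U j, r ^ len u = 0) →
    ∑ j, σ j = 0 ∧ ∑ j, (if (U j).card = 1 then σ j else 0) = 0

end

end Run7.h854.ZD
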